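import Mathlib
import Pool.Agent.H18.Wd.Up3

set_option autoImplicit false

/-!
# `e^e` and integrals of Bessel functions up to `e`

Let `S(x) = ∑_n H_n (x / 2)^(2n) / n!^2` (`H_n` the harmonic numbers), the entire part of
`K_0(x) = ∫_0^∞ exp(-x cosh t) dt = S(x) - (γ + log (x / 2)) I_0(x)`, `I_0(x) = ∑_n (x / 2)^(2n) / n!^2`.
For an integer `k ≥ 2` let `R_k(x)` and `T_k(x)` be the means of the tails `∑_{n > j} 1/n^k` of `ζ(k)` with the weights
`(x / 2)^(2j) / (j!^2 I_0(x))` and `exp (-x) x^j/j!`. For a function `f` and real `x > 0` and `β` we consider the numbers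

(B) `R_k(x) - R_k(x e^β)`, `k ≥ 2`, if `β ≠ 0`, and `ζ(k) - R_k(x)` if `β = 0`;

(S) `f(x e^β)`; and `∫_0^β s^k f(x e^s) ds`, `k ≥ 0`, if `β ≠ 0`, and `C_k(x) = ∑_{n ≥ 1} H_n (x / 2)^(2n) / (n!^2 n^k)`, `k ≥ 1`,
if `β = 0`;

(P) `T_k(x) - T_k(x e^β)`, `k ≥ 2`, if `β ≠ 0`, and `ζ(k) - T_k(x)` if `β = 0`;

(E) `∫_0^β s^k exp (-x e^s) ds`, `k ≥ 0`, if `β ≠ 0`, and `E_k(x) = ∑_{m ≥ 1} (-1)^(m-1) x^m / (m! m^k)`, `k ≥ 1`, if `β = 0`.

Let `𝓕` be the field generated by all numbers `b`, `exp b`, `I_0(b)`, `I_1(b)`, `A_k(b) = ∑_{n ≥ 1} (b / 2)^(2n) / (n!^2 n^k)` (`k ≥ 0`)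
and `W_k(b) = (b / 2) (I_0(b) V_k'(b) - I_1(b) V_k(b))` (`k ≥ 2`), where `b` is algebraic and
`V_k(z) = ∑_n H_n^(k) (z / 2)^(2n) / n!^2`, `H_n^(k) = ∑_{j ≤ n} 1/j^k`.

Let `V` be the set of the real numbers `β` such that `β` is algebraic over `𝓕` and `e^β` is algebraic.
(`V` contains `0`; it contains `e` if and only if `e^e` is algebraic. Nothing is assumed about `V`.)

(1) Let `X` be a set of positive algebraic numbers, and `x / y` not in `exp (V)` for distinct `x, y` in `X` (for example `X = {1}`).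
All the numbers (B), (S) for `f = S`, (P), (E) for `x ∈ X`, `β ∈ V` are algebraically independent over `𝓕`.

(2) Let also `y_1, …, y_r` be complex numbers such that `γ + log (x / 2)` is algebraic over `𝓕(y_1, …, y_r)` for all `x ∈ X`. For
all `m` the numbers `y_1, …, y_r` and any `m` of the numbers (B), (S) for `f = K_0`, (P), (E) (`x ∈ X`, `β ∈ V`) generate a field of
transcendence degree at least `m` over `𝓕`, and at most `r` of `y_1, …, y_r` and all these numbers are algebraic over `𝓕`.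

(3) For all real `β ≠ 0` which are algebraic over `𝓕` and all algebraic `x > 0` the number `e^β` is transcendental or all the numbers
(B), (S) for `f = S`, (P), (E) for `x` and the rational multiples of `β` are algebraically independent over `𝓕`, and at most one of
`γ + log (x / 2)` and all numbers (B), (S) for `f = K_0`, (P), (E) for `x` and the rational multiples of `β` is algebraic over `𝓕`.

(4) In particular, for all algebraic `x > 0` at least one of `e^e` and a is transcendental, the latter over `𝓕`, where a is any of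
the numbers `∫_0^e s^k exp (-x e^s) ds`, `∫_0^e s^k S(x e^s) ds` (`k ≥ 0`), `R_k(x) - R_k(x e^e)`, `T_k(x) - T_k(x e^e)` (`k ≥ 2`);
and if `e^e` is algebraic then all these numbers, also with `re` in place of `e` (`r ≠ 0` rational), are algebraically
independent over `𝓕`, and at most one of the numbers `γ + log (x / 2)`, `∫_0^(re) s^k K_0(x e^s) ds` (`k ≥ 0`, `r ≠ 0` rational) is
algebraic over `𝓕`.

The numbers `∫_0^β s^k exp (-x e^s) ds` have been treated in the library (`IntegralsUpToE` on this problem), over another field.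
The proof: the numbers `V_k(z) / I_0(z)` (`k ≥ 2`), `C_k(z)` (`k ≥ 0`), `ζ(k) - T_k(z)` (`k ≥ 2`) and `E_k(z)` (`k ≥ 1`), `z > 0` algebraic,
are algebraically independent over `𝓕` (`Pool/Agent/H18/Wd`; iterated integrals with respect to `dx/x` of words in the letters
`I_0(a x)`, `I_0(a x)^2`, `I_0(a x)^(-2)`, derivations of the shuffle algebra, and the method of Siegel and Shidlovskii), and the
numbers above are obtained from these by integration by parts.
-/

namespace Pool.Agent.Results.MP_58ae59_nt.BesselIntegralsUpToE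

open Set MeasureTheory

/-- `H_n^(k) = ∑_{j ≤ n} 1/j^k` -/
noncomputable def harmonic (k n : ℕ) : ℂ := ∑ j ∈ Finset.range n, 1 / ((j : ℂ) + 1) ^ k

/-- `I_0(z)` -/
noncomputable def I0 (z : ℂ) : ℂ := ∑' n : ℕ, (z ^ 2 / 4) ^ n / (n.factorial : ℂ) ^ 2

/-- `I_1(z)` -/
noncomputable def I1 (z : ℂ) : ℂ := z / 2 * ∑' n : ℕ, (z ^ 2 / 4) ^ n / ((n.factorial : ℂ) * ((n + 1).factorial : ℂ))

/-- `A_k(z) = ∑_{n ≥ 1} (z / 2)^(2n) / (n!^2 n^k)` -/
noncomputable def A (k : ℕ) (z : ℂ) : ℂ :=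
  ∑' n : ℕ, (z ^ 2 / 4) ^ (n + 1) / (((n + 1).factorial : ℂ) ^ 2 * ((n : ℂ) + 1) ^ k)

/-- `V_k(z) = ∑_n H_n^(k) (z / 2)^(2n) / n!^2` -/
noncomputable def V (k : ℕ) (z : ℂ) : ℂ := ∑' n : ℕ, harmonic k n * ((z ^ 2 / 4) ^ n / (n.factorial : ℂ) ^ 2)

/-- `(z / 2) V_k'(z)` -/
noncomputable def dV (k : ℕ) (z : ℂ) : ℂ := ∑' n : ℕ, (n : ℂ) * (harmonic k n * ((z ^ 2 / 4) ^ n / (n.factorial : ℂ) ^ 2))

/-- `W_k(z) = (z / 2) (I_0(z) V_k'(z) - I_1(z) V_k(z))` -/
noncomputable def W (k : ℕ) (z : ℂ) : ℂ := I0 z * dV k z - z / 2 * I1 z * V k z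

/-- `R_k(z)` -/
noncomputable def R (k : ℕ) (z : ℂ) : ℂ :=
  (∑' j : ℕ, (z ^ 2 / 4) ^ j / (j.factorial : ℂ) ^ 2 * ∑' i : ℕ, 1 / ((i : ℂ) + j + 1) ^ k) / I0 z

/-- `T_k(z)` -/
noncomputable def T (k : ℕ) (z : ℂ) : ℂ :=
  Complex.exp (-z) * ∑' j : ℕ, z ^ j / j.factorial * ∑' i : ℕ, 1 / ((i : ℂ) + j + 1) ^ k

/-- `C_k(z) = ∑_{n ≥ 1} H_n (z / 2)^(2n) / (n!^2 n^k)` -/
noncomputable def C (k : ℕ) (z : ℂ) : ℂ :=
  ∑' n : ℕ, harmonic 1 (n + 1) * ((z ^ 2 / 4) ^ (n + 1) / (((n + 1).factorial : ℂ) ^ 2 * ((n : ℂ) + 1) ^ k))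

/-- `E_k(x) = ∑_{m ≥ 1} (-1)^(m-1) x^m / (m! m^k)` -/
noncomputable def E (k : ℕ) (x : ℝ) : ℝ := ∑' m : ℕ, -(-x) ^ (m + 1) / ((m + 1).factorial * ((m : ℝ) + 1) ^ k)

/-- `K_0(x) = ∫_0^∞ exp(-x cosh t) dt` -/
noncomputable def K0 (x : ℝ) : ℝ := ∫ t in Ioi (0 : ℝ), Real.exp (-x * Real.cosh t)

/-- `S(x) = ∑_n H_n (x / 2)^(2n) / n!^2` -/
noncomputable def S (x : ℝ) : ℝ :=
  ∑' n : ℕ, (∑ j ∈ Finset.range n, 1 / ((j : ℝ) + 1)) / (n.factorial : ℝ) ^ 2 * (x ^ 2 / 4) ^ n

/-- the field `𝓕` -/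
noncomputable def baseField : IntermediateField ℚ ℂ := IntermediateField.adjoin ℚ
  {w | ∃ b : ℂ, IsAlgebraic ℚ b ∧ (w = b ∨ w = Complex.exp b ∨ w = I0 b ∨ w = I1 b ∨
    ∃ k : ℕ, w = A k b ∨ w = W (k + 2) b)}

/-- `w` is algebraic over `𝓕` -/
def AlgebraicOver (w : ℂ) : Prop := IsAlgebraic baseField w

/-- `w` is algebraic over the field generated by `𝓕` and the numbers `y_j` -/
def AlgebraicOverAnd {τ : Type} (y : τ → ℂ) (w : ℂ) : Prop :=
  IsAlgebraic (IntermediateField.adjoin baseField (range y)) w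

/-- the set `V` -/
def exponents : Set ℝ := {β | AlgebraicOver β ∧ IsAlgebraic ℚ (Real.exp β)}

/-- the four kinds (B), (S), (P), (E) of the numbers -/
inductive Kind : Type
  /-- the numbers (B) -/
  | B : Kind
  /-- the numbers (S) -/
  | S : Kind
  /-- the numbers (P) -/
  | P : Kind
  /-- the numbers (E) -/
  | E : Kind

open Classical in
/-- the numbers of the four kinds: in this order `R_{k+2}(x) - R_{k+2}(x e^β)` or `ζ(k+2) - R_{k+2}(x)`; `f(x e^β)`;
`∫_0^β s^k f(x e^s) ds` or `C_{k+1}(x)`; `T_{k+2}(x) - T_{k+2}(x e^β)` or `ζ(k+2) - T_{k+2}(x)`; `∫_0^β s^k exp (-x e^s) ds` or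
`E_{k+1}(x)` -/
noncomputable def number (f : ℝ → ℝ) (x β : ℝ) : Kind → ℕ → ℂ
  | .B, k => if β = 0 then riemannZeta ((k + 2 : ℕ) : ℂ) - R (k + 2) x else R (k + 2) x - R (k + 2) ((x * Real.exp β : ℝ) : ℂ)
  | .S, 0 => ((f (x * Real.exp β) : ℝ) : ℂ)
  | .S, k + 1 => if β = 0 then C (k + 1) x else ((∫ s in (0 : ℝ)..β, s ^ k * f (x * Real.exp s) : ℝ) : ℂ)
  | .P, k => if β = 0 then riemannZeta ((k + 2 : ℕ) : ℂ) - T (k + 2) x else T (k + 2) x - T (k + 2) ((x * Real.exp β : ℝ) : ℂ)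
  | .E, k => if β = 0 then ((E (k + 1) x : ℝ) : ℂ) else ((∫ s in (0 : ℝ)..β, s ^ k * Real.exp (-(x * Real.exp s)) : ℝ) : ℂ)

/-- the numbers for `x ∈ X`, `β ∈ B` -/
noncomputable def value (f : ℝ → ℝ) {X B : Set ℝ} (p : (X × B) × Kind × ℕ) : ℂ := number f p.1.1 p.1.2 p.2.1 p.2.2

/-- positive algebraic numbers -/
def PositiveAlgebraic (X : Set ℝ) : Prop := ∀ x ∈ X, 0 < x ∧ IsAlgebraic ℚ x

/-- the quotient of two different elements of `X` is not in `exp (V)` -/
def Separated (X : Set ℝ) : Prop := ∀ x ∈ X, ∀ y ∈ X, ∀ β ∈ exponents, x = y * Real.exp β → x = y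

/-- the indices `j` for which `y_j` is algebraic over `𝓕`, and the names `i` for which `v_i` is algebraic over `𝓕` -/
def algebraicOnes {τ ι : Type} (y : τ → ℂ) (v : ι → ℂ) : Set (τ ⊕ ι) :=
  {n | Sum.elim (fun j => AlgebraicOver (y j)) (fun i => AlgebraicOver (v i)) n}

/-- the rational multiples of `β` -/
def multiples (β : ℝ) : Set ℝ := range fun r : ℚ => (r : ℝ) * β

open Pool.Agent.N902.EW Pool.Agent.H18.Bes Pool.Agent.H18.Wd

theorem baseField_eq : baseField = LB := by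
  refine le_antisymm (IntermediateField.adjoin_le_iff.2 ?_) (IntermediateField.adjoin.mono _ _ _ ?_)
  · have hsub : GLb ⊆ LB := IntermediateField.subset_adjoin ℚ GLb
    rintro w ⟨b, hb, rfl | rfl | rfl | rfl | ⟨k, rfl | rfl⟩⟩
    · exact hsub (Or.inl (Or.inl hb))
    · exact hsub (Or.inl (Or.inr ⟨b, hb, rfl⟩))
    · exact hsub (Or.inr ⟨b, hb, Or.inl rfl⟩)
    · exact hsub (Or.inr ⟨b, hb, Or.inr (Or.inl rfl)⟩)
    · exact Av_mem_LB hb k
    · exact hsub (Or.inr ⟨b, hb, Or.inr (Or.inr ⟨k, Or.inr rfl⟩)⟩)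
  · rintro w ((hw | ⟨b, hb, rfl⟩) | ⟨b, hb, rfl | rfl | ⟨k, rfl | rfl⟩⟩)
    · exact ⟨w, hw, Or.inl rfl⟩
    · exact ⟨b, hb, Or.inr (Or.inl rfl)⟩
    · exact ⟨b, hb, Or.inr (Or.inr (Or.inl rfl))⟩
    · exact ⟨b, hb, Or.inr (Or.inr (Or.inr (Or.inl rfl)))⟩
    · exact ⟨b, hb, Or.inr (Or.inr (Or.inr (Or.inr ⟨k + 1, Or.inl rfl⟩)))⟩
    · exact ⟨b, hb, Or.inr (Or.inr (Or.inr (Or.inr ⟨k, Or.inr rfl⟩)))⟩

theorem algebraicOver_iff (w : ℂ) : AlgebraicOver w ↔ IsAlgebraic LB w := by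
  rw [AlgebraicOver, baseField_eq]

theorem algebraicOverAnd_iff {τ : Type} (y : τ → ℂ) (w : ℂ) : AlgebraicOverAnd y w ↔ w ∈ clf LB (range y) := by
  rw [AlgebraicOverAnd, baseField_eq, mem_clf]

theorem mem_VL {β : ℝ} (h : β ∈ exponents) : β ∈ VL := ⟨(algebraicOver_iff _).1 h.1, h.2⟩

theorem mem_exponents {β : ℝ} (h : β ∈ VL) : β ∈ exponents := ⟨(algebraicOver_iff _).2 h.1, h.2⟩

/-- the exponent -/
def toVL (β : exponents) : VL := ⟨β.1, mem_VL β.2⟩

theorem toVL_injective : Function.Injective toVL := fun _ _ h => Subtype.ext (Subtype.mk.inj h)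

theorem K0_eq (x : ℝ) : K0 x = Y0 true x := by
  show (∫ t in Ioi (0 : ℝ), Real.exp (-x * Real.cosh t)) = ∫ t in Ioi (0 : ℝ), krf 0 x t
  refine integral_congr_ae (Filter.Eventually.of_forall fun t => ?_)
  simp [krf]

theorem S_eq (x : ℝ) : S x = Y0 false x := by
  show S x = sr (a2 ℝ) (x ^ 2 / 4)
  rw [S, sr]
  refine tsum_congr fun n => ?_
  rw [a2, _root_.harmonic]
  push_cast
  congr 2
  refine Finset.sum_congr rfl fun j _ => ?_
  rw [one_div]

/-- the kinds -/
def kd : Kind → Kd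
  | .B => .bes
  | .S => .ent
  | .P => .poi
  | .E => .exp

theorem kd_injective : Function.Injective kd := by
  rintro (_ | _ | _ | _) (_ | _ | _ | _) h <;> first | rfl | cases h

theorem number_eq {b : Bool} {f : ℝ → ℝ} (hf : ∀ x, f x = Y0 b x) {x : ℝ} (hx : 0 < x ∧ IsAlgebraic ℚ x) (β : ℝ) (i : Kind)
    (k : ℕ) : number f x β i k = nU b x β (kd i) k := by
  have hf' : f = Y0 b := funext hf
  subst hf'
  rcases i
  · rw [number]
    show _ = nU b x β .bes k
    rw [nU]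
    split_ifs with h
    · have := R_split (k := k + 2) (by omega) (I0_ne (alg_cast hx.2))
      show riemannZeta ((k + 2 : ℕ) : ℂ) - RT (k + 2) x = _
      rw [this]
      ring
    · rfl
  · rcases k with _ | k
    · rfl
    · rfl
  · rw [number]
    show _ = nU b x β .poi k
    rw [nU]
    split_ifs with h
    · have := zeta_split (k := k + 2) (by omega) (x : ℂ)
      show riemannZeta ((k + 2 : ℕ) : ℂ) - PT (k + 2) x = _
      rw [this]
      ring
    · rfl
  · rfl

theorem cL_eq {x : ℝ} (hx : 0 < x) : ((cL x : ℝ) : ℂ) = ((Real.eulerMascheroniConstant + Real.log (x / 2) : ℝ) : ℂ) := by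
  congr 1
  rw [cL, Real.log_div hx.ne' (by norm_num)]
  ring

section

variable {X : Set ℝ} (hX : PositiveAlgebraic X) (hXX : Separated X)

/-- the names -/
def dec : (X × exponents) × Kind × ℕ → IU X := Prod.map (Prod.map id toVL) (Prod.map kd id)

theorem dec_injective : Function.Injective (dec (X := X)) :=
  Function.Injective.prodMap (Function.Injective.prodMap Function.injective_id toVL_injective)
    (Function.Injective.prodMap kd_injective Function.injective_id)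

include hX in
theorem value_dec {b : Bool} {f : ℝ → ℝ} (hf : ∀ x, f x = Y0 b x) (p : (X × exponents) × Kind × ℕ) :
    value f p = tU b (dec p) := by
  obtain ⟨⟨x, ⟨β, hβ⟩⟩, i, k⟩ := p
  exact number_eq hf (hX x.1 x.2) β i k

include hXX

theorem separated : ∀ x ∈ X, ∀ y ∈ X, ∀ β ∈ VL, x = y * Real.exp β → x = y :=
  fun x hx y hy β hβ => hXX x hx y hy β (mem_exponents hβ)

include hX

theorem independent : AlgebraicIndependent baseField (value S (X := X) (B := exponents)) := by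
  have h := (ai_tU hX (separated hXX)).comp (dec (X := X)) dec_injective
  rw [baseField_eq]
  convert h using 1
  ext p
  exact value_dec hX S_eq p

theorem degree {r : ℕ} {y : Fin r → ℂ}
    (hy : ∀ x ∈ X, AlgebraicOverAnd y ((Real.eulerMascheroniConstant + Real.log (x / 2) : ℝ) : ℂ))
    (A : Finset ((X × exponents) × Kind × ℕ)) : (A.card : Cardinal) ≤ Algebra.trdeg baseField
      (IntermediateField.adjoin baseField (range y ∪ value K0 '' (A : Set ((X × exponents) × Kind × ℕ)))) := by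
  have hc : ∀ x ∈ X, ((cL x : ℝ) : ℂ) ∈ clf LB (range y) := fun x hx => by
    rw [cL_eq (hX x hx).1]
    exact (algebraicOverAnd_iff _ _).1 (hy x hx)
  have h := trdeg_u hX (separated hXX) hc (A.map ⟨dec, dec_injective⟩)
  rw [Finset.card_map] at h
  have e : tU true '' ((A.map ⟨dec, dec_injective⟩ : Finset (IU X)) : Set (IU X)) =
      value K0 '' (A : Set ((X × exponents) × Kind × ℕ)) := by
    rw [Finset.coe_map, ← image_comp]
    refine image_congr fun p _ => ?_
    exact (value_dec hX K0_eq p).symm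
  rw [e] at h
  rw [baseField_eq]
  exact h

theorem count {r : ℕ} {y : Fin r → ℂ}
    (hy : ∀ x ∈ X, AlgebraicOverAnd y ((Real.eulerMascheroniConstant + Real.log (x / 2) : ℝ) : ℂ)) :
    (algebraicOnes y (value K0 (X := X) (B := exponents))).encard ≤ (r : ℕ∞) := by
  have hc : ∀ x ∈ X, ((cL x : ℝ) : ℂ) ∈ clf LB (range y) := fun x hx => by
    rw [cL_eq (hX x hx).1]
    exact (algebraicOverAnd_iff _ _).1 (hy x hx)
  have h := count_u hX (separated hXX) hc
  rw [Fintype.card_fin] at h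
  refine le_trans ?_ h
  have hinj : Function.Injective (Sum.map id (dec (X := X)) : Fin r ⊕ ((X × exponents) × Kind × ℕ) → Fin r ⊕ IU X) :=
    Function.Injective.sumMap Function.injective_id dec_injective
  rw [← hinj.encard_image]
  refine encard_le_encard ?_
  rintro _ ⟨n, hn, rfl⟩
  rcases n with j | i
  · exact (algebraicOver_iff _).1 hn
  · show IsAlgebraic LB (tU true (dec i))
    rw [← value_dec hX K0_eq]
    exact (algebraicOver_iff _).1 hn

end

theorem multiples_subset {β : ℝ} (h1 : AlgebraicOver β) (h2 : IsAlgebraic ℚ (Real.exp β)) : multiples β ⊆ exponents := by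
  rintro _ ⟨r, rfl⟩
  refine ⟨?_, ?_⟩
  · show IsAlgebraic baseField (((r : ℝ) * β : ℝ) : ℂ)
    push_cast
    exact (isAlgebraic_algebraMap (r : baseField)).mul h1
  · have h3 : Real.exp ((r : ℝ) * β) ^ r.den = Real.exp β ^ r.num := by
      rw [← Real.exp_nat_mul, ← Real.rpow_intCast, ← Real.exp_mul]
      congr 1
      have : (r.den : ℝ) * (r : ℝ) = r.num := by exact_mod_cast Rat.den_mul_eq_num r
      rw [← mul_assoc, this, mul_comm]
    refine IsAlgebraic.of_pow (n := r.den) r.den_pos ?_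
    rw [h3]
    have h4 : ∀ z : ℝ, IsAlgebraic ℚ z ↔ z ∈ algebraicClosure ℚ ℝ := fun z => by
      rw [mem_algebraicClosure_iff]
    rw [h4]
    exact zpow_mem ((h4 _).1 h2) _

theorem single_separated (x : ℝ) : Separated {x} := by
  rintro y rfl z rfl β _ _
  rfl

/-- the inclusion of the names -/
def inc {X B B' : Set ℝ} (h : B ⊆ B') (p : (X × B) × Kind × ℕ) : (X × B') × Kind × ℕ := ((p.1.1, ⟨p.1.2.1, h p.1.2.2⟩), p.2)

theorem inc_injective {X B B' : Set ℝ} (h : B ⊆ B') : Function.Injective (inc (X := X) h) := by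
  rintro ⟨⟨x, β⟩, p⟩ ⟨⟨y, γ⟩, q⟩ h
  obtain ⟨h1, h2⟩ := Prod.ext_iff.1 h
  obtain ⟨h3, h4⟩ := Prod.ext_iff.1 h1
  exact Prod.ext (Prod.ext h3 (Subtype.ext (congrArg (fun z => z.1) h4))) h2

theorem alternative {β : ℝ} (h1 : AlgebraicOver β) {x : ℝ} (hx : 0 < x ∧ IsAlgebraic ℚ x) (h2 : IsAlgebraic ℚ (Real.exp β)) :
    AlgebraicIndependent baseField (value S (X := {x}) (B := multiples β)) ∧
    (algebraicOnes (fun _ : Fin 1 => ((Real.eulerMascheroniConstant + Real.log (x / 2) : ℝ) : ℂ))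
      (value K0 (X := {x}) (B := multiples β))).encard ≤ 1 := by
  have hX : PositiveAlgebraic {x} := by
    rintro _ rfl
    exact hx
  have hs := multiples_subset h1 h2
  refine ⟨(independent hX (single_separated x)).comp (inc hs) (inc_injective hs), ?_⟩
  have h := count (r := 1) (y := fun _ : Fin 1 => ((Real.eulerMascheroniConstant + Real.log (x / 2) : ℝ) : ℂ)) hX
    (single_separated x) (by
      intro z hz
      rw [mem_singleton_iff.1 hz]
      exact isAlgebraic_algebraMap (⟨_, IntermediateField.subset_adjoin _ _ ⟨0, rfl⟩⟩ :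
        IntermediateField.adjoin baseField (range fun _ : Fin 1 =>
          ((Real.eulerMascheroniConstant + Real.log (x / 2) : ℝ) : ℂ))))
  rw [Nat.cast_one] at h
  refine le_trans ?_ h
  rw [← (Function.Injective.sumMap Function.injective_id (inc_injective (X := {x}) hs) :
    Function.Injective (Sum.map (id : Fin 1 → Fin 1) (inc (X := {x}) hs))).encard_image]
  refine encard_le_encard ?_
  rintro _ ⟨n, hn, rfl⟩
  rcases n with j | i
  · exact hn
  · exact hn

theorem exp_one_mem : AlgebraicOver (Real.exp 1) := by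
  have h : Complex.exp 1 ∈ baseField := IntermediateField.subset_adjoin _ _ ⟨1, isAlgebraic_one, Or.inr (Or.inl rfl)⟩
  have h2 : ((Real.exp 1 : ℝ) : ℂ) = Complex.exp 1 := by
    push_cast
    rfl
  show IsAlgebraic baseField ((Real.exp 1 : ℝ) : ℂ)
  rw [h2]
  exact isAlgebraic_algebraMap (⟨_, h⟩ : baseField)

theorem K0_S {x : ℝ} (hx : 0 < x) : ((K0 x : ℝ) : ℂ) = S x - (Real.eulerMascheroniConstant + Real.log (x / 2) : ℝ) * I0 x := by
  have h1 := kr_eq hx 0
  rw [add_zero, Real.exp_zero, mul_one] at h1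
  have h2 : K0 x = kr 0 x := K0_eq x
  have h3 : S x = gC x 0 0 := by
    rw [S_eq, ← Sk_eq, Real.exp_zero, mul_one]
    rfl
  have h4 : I0 x = ((gA x 0 0 + 1 : ℝ) : ℂ) := by
    have h5 : ((gA x 0 0 : ℝ) : ℂ) = Av 0 x := by
      have h6 : ((gA x 0 0 : ℝ) : ℂ) = Gr (a1 ℂ) 0 ((x : ℂ) ^ 2 / 4) := by
        rw [gA, Real.exp_zero, mul_one, show ((x : ℂ) ^ 2 / 4) = ((x ^ 2 / 4 : ℝ) : ℂ) by push_cast; rfl, Gr_real a1_real]
      rw [h6, Gr_a1, pow_zero, div_one]
    push_cast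
    rw [h5, Av_zero']
    show Pool.Agent.H18.Bes.I0 x = _
    ring
  rw [h2, h1, h3, h4, cL, Real.log_div hx.ne' (by norm_num)]
  push_cast
  ring

theorem result :
    -- `K_0(x) = S(x) - (γ + log (x / 2)) I_0(x)`
    (∀ x : ℝ, 0 < x → ((K0 x : ℝ) : ℂ) = S x - (Real.eulerMascheroniConstant + Real.log (x / 2) : ℝ) * I0 x) ∧
    -- (1)
    (∀ X : Set ℝ, PositiveAlgebraic X → Separated X → AlgebraicIndependent baseField (value S (X := X) (B := exponents))) ∧
    -- (2)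
    (∀ X : Set ℝ, PositiveAlgebraic X → Separated X → ∀ (r : ℕ) (y : Fin r → ℂ),
      (∀ x ∈ X, AlgebraicOverAnd y ((Real.eulerMascheroniConstant + Real.log (x / 2) : ℝ) : ℂ)) →
      (∀ A : Finset ((X × exponents) × Kind × ℕ), (A.card : Cardinal) ≤ Algebra.trdeg baseField
        (IntermediateField.adjoin baseField (range y ∪ value K0 '' (A : Set ((X × exponents) × Kind × ℕ))))) ∧
      (algebraicOnes y (value K0 (X := X) (B := exponents))).encard ≤ (r : ℕ∞)) ∧
    -- (3)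
    (∀ β : ℝ, AlgebraicOver β → ∀ x : ℝ, 0 < x → IsAlgebraic ℚ x → Transcendental ℚ (Real.exp β) ∨
      (AlgebraicIndependent baseField (value S (X := {x}) (B := multiples β)) ∧
      (algebraicOnes (fun _ : Fin 1 => ((Real.eulerMascheroniConstant + Real.log (x / 2) : ℝ) : ℂ))
        (value K0 (X := {x}) (B := multiples β))).encard ≤ 1)) ∧
    -- (4)
    (∀ x : ℝ, 0 < x → IsAlgebraic ℚ x → ∀ (i : Kind) (k : ℕ),
      Transcendental ℚ (Real.exp (Real.exp 1)) ∨ Transcendental baseField (number S x (Real.exp 1) i k)) ∧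
    (IsAlgebraic ℚ (Real.exp (Real.exp 1)) → ∀ x : ℝ, 0 < x → IsAlgebraic ℚ x →
      AlgebraicIndependent baseField (value S (X := {x}) (B := multiples (Real.exp 1))) ∧
      (algebraicOnes (fun _ : Fin 1 => ((Real.eulerMascheroniConstant + Real.log (x / 2) : ℝ) : ℂ))
        (value K0 (X := {x}) (B := multiples (Real.exp 1)))).encard ≤ 1) := by
  refine ⟨fun x hx => K0_S hx, fun X hX hXX => independent hX hXX, fun X hX hXX r y hy =>
    ⟨fun A => degree hX hXX hy A, count hX hXX hy⟩, fun β hβ x hx hx' => ?_, fun x hx hx' i k => ?_,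
    fun h x hx hx' => alternative exp_one_mem ⟨hx, hx'⟩ h⟩
  · by_cases h : IsAlgebraic ℚ (Real.exp β)
    · exact Or.inr (alternative hβ ⟨hx, hx'⟩ h)
    · exact Or.inl h
  · by_cases h : IsAlgebraic ℚ (Real.exp (Real.exp 1))
    · right
      have h1 := (alternative exp_one_mem ⟨hx, hx'⟩ h).1
      exact h1.transcendental ((⟨x, rfl⟩, ⟨Real.exp 1, 1, by simp⟩), i, k)
    · exact Or.inl h

end Pool.Agent.Results.MP_58ae59_nt.BesselIntegralsUpToE
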