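import Mathlib
import Pool.Agent.H18.Po.Fin
import Pool.Agent.H18.It.Fin

set_option autoImplicit false

/-!
# `e^e` and integrals of powers of the exponential integral up to `e`

Let `E_1(t) = ∫_t^∞ exp (-u) du / u` (`t > 0`) be the exponential integral. For positive `x`, real `β ≠ 0` and `k ≥ 0`, `m ≥ 1` let
`N_{k,m}(x, β) = ∫_0^β s^k E_1(x e^s)^m ds`.

For complex numbers `a_1, …, a_n` with `a_n ≠ 0` let `I(a_1, …, a_n)` be the iterated integral of the forms
`ω_{a_1}(t_1), …, ω_{a_n}(t_n)` over `1 > t_1 > … > t_n > 0`, where `ω_0 = dt / t` and `ω_a = (exp (a t) - 1) dt / t` for `a ≠ 0`.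
Let `N_{k,m}(x, 0) = I(0, …, 0, -x, …, -x)` with `k + 1` zeros and `m` letters `-x`.

Let `𝓕` be the field which is generated by all algebraic numbers, all numbers `exp b`, `b` algebraic, and all numbers
`I(a_1, …, a_n)` with algebraic `a_1, …, a_n`, none of which is zero or none of which is a negative real number. (So `𝓕` contains
`∫_0^x (1 - exp (-t)) dt / t = E_1(x) + γ + log x` for every positive algebraic `x`, and the base field of the library's theorem
`IntegralsUpToE`.) Let `V` be the set of the real numbers `β` such that `β` is algebraic over `𝓕` and `e^β` is algebraic.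

(1) Let `X` be a set of positive algebraic numbers, and `x / x'` not in `exp (V)` for distinct `x, x'` in `X`, and let all the numbers
`E_1(x)`, `x` in `X`, be algebraic over `𝓕(y_1, …, y_r)`. Then `y_1, …, y_r` and any `n` of the numbers `N_{k,m}(x, β)` (`x` in `X`, `β` in
`V`, `k ≥ 0`, `m ≥ 1`) generate a field of transcendence degree at least `n` over `𝓕`, and at most `r` of all the numbers `y_j`,
`N_{k,m}(x, β)` are algebraic over `𝓕`.

(2) Let `β ≠ 0` be real and algebraic over `𝓕`. Then `e^β` is transcendental, or for every positive algebraic `x` the number `E_1(x)` and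
any `n` of the numbers `N_{k,m}(x, r β)` (`r` rational, `k ≥ 0`, `m ≥ 1`) generate a field of transcendence degree at least `n` over `𝓕`,
and at most one of `E_1(x)` and all these numbers is algebraic over `𝓕`.

(3) This holds in particular for `β = e`: `e^e` is transcendental, or at most one of `E_1(x)` and all the numbers
`∫_0^(re) s^k E_1(x e^s)^m ds` is algebraic over `𝓕`.

(4) So one of the three numbers `e^e`, `∫_0^(re) s^k E_1(x e^s)^m ds`, `∫_0^(r'e) s^k' E_1(x e^s)^m' ds` is transcendental for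
`(r, k, m) ≠ (r', k', m')`, `r, r' ≠ 0`, and one of the three numbers `e^e`, `E_1(x)`, `∫_0^(re) s^k E_1(x e^s)^m ds`.

In Lean the exponent `m ≥ 1` is `q.2 + 1`.
-/

namespace Pool.Agent.Results.MP_58ae59_nt.ExponentialIntegralPowersUpToE

open Set MeasureTheory

/-- `E_1(t) = ∫_t^∞ exp (-u) du / u` -/
noncomputable def E1 (t : ℝ) : ℝ := ∫ u in Ioi t, Real.exp (-u) / u

/-- the iterated integral of `ω_{a_1}(t_1), …, ω_{a_n}(t_n)` over `t > t_1 > … > t_n > 0` -/
noncomputable def iterated : List ℂ → ℝ → ℂ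
  | [], _ => 1
  | a :: v, t => ∫ s in (0 : ℝ)..t, (if a = 0 then 1 else Complex.exp (a * s) - 1) * iterated v s / s

/-- `I(a_1, …, a_n)` -/
noncomputable def I (w : List ℂ) : ℂ := iterated w 1

/-- the entries are algebraic and the last one is not zero -/
def Admissible (w : List ℂ) : Prop := (∀ a ∈ w, IsAlgebraic ℚ a) ∧ ∀ h : w ≠ [], w.getLast h ≠ 0

/-- a negative real number -/
def IsNegative (a : ℂ) : Prop := ∃ x : ℝ, 0 < x ∧ a = -(x : ℂ)

/-- the field `𝓕` -/
noncomputable def baseField : IntermediateField ℚ ℂ := IntermediateField.adjoin ℚ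
  ({z | IsAlgebraic ℚ z} ∪ {z | ∃ b : ℂ, IsAlgebraic ℚ b ∧ z = Complex.exp b} ∪
    {z | ∃ w : List ℂ, Admissible w ∧ ((0 : ℂ) ∉ w ∨ ∀ a ∈ w, ¬ IsNegative a) ∧ z = I w})

/-- `z` is algebraic over `𝓕` -/
def AlgebraicOver (z : ℂ) : Prop := IsAlgebraic baseField z

/-- `z` is algebraic over the field generated by `𝓕` and the numbers `y_j` -/
def AlgebraicOverAnd {τ : Type} (y : τ → ℂ) (z : ℂ) : Prop :=
  IsAlgebraic (IntermediateField.adjoin baseField (range y)) z

/-- the set `V` -/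
def exponents : Set ℝ := {β | AlgebraicOver β ∧ IsAlgebraic ℚ (Real.exp β)}

open Classical in
/-- `N_{k,m}(x, β)` for `q = (k, m - 1)` -/
noncomputable def number (x β : ℝ) (q : ℕ × ℕ) : ℂ :=
  if β = 0 then I (List.replicate (q.1 + 1) 0 ++ List.replicate (q.2 + 1) (-(x : ℂ))) else
    ((∫ s in (0 : ℝ)..β, s ^ q.1 * E1 (x * Real.exp s) ^ (q.2 + 1) : ℝ) : ℂ)

/-- the numbers for `x ∈ X`, `β ∈ V` -/
noncomputable def value {X : Set ℝ} (p : (X × exponents) × (ℕ × ℕ)) : ℂ := number p.1.1 p.1.2 p.2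

/-- the numbers `N_{k,m}(x, r β)` for one point `x` and the rational multiples of `β` -/
noncomputable def multipleValue (x β : ℝ) (p : ℚ × (ℕ × ℕ)) : ℂ := number x ((p.1 : ℝ) * β) p.2

/-- positive algebraic numbers -/
def PositiveAlgebraic (X : Set ℝ) : Prop := ∀ x ∈ X, 0 < x ∧ IsAlgebraic ℚ x

/-- the quotient of two different elements of `X` is not in `exp (V)` -/
def Separated (X : Set ℝ) : Prop := ∀ x ∈ X, ∀ y ∈ X, ∀ β ∈ exponents, x = y * Real.exp β → x = y

/-- the indices `j` for which `y_j` is algebraic over `𝓕`, and the names `i` for which `v_i` is algebraic over `𝓕` -/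
def algebraicOnes {τ ι : Type} (y : τ → ℂ) (v : ι → ℂ) : Set (τ ⊕ ι) :=
  {n | Sum.elim (fun j => AlgebraicOver (y j)) (fun i => AlgebraicOver (v i)) n}

open Pool.Agent.N902.EW Pool.Agent.H18.It Pool.Agent.H18.Po

theorem E1_eq : E1 = Pool.Agent.H18.Po.E1 := rfl

theorem iterated_eq (w : List ℂ) : ∀ t : ℝ, iterated w t = II w t := by
  induction w with
  | nil => intro t; rfl
  | cons a v ih =>
    intro t
    rw [iterated, II]
    refine intervalIntegral.integral_congr fun s _ => ?_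
    show (if a = 0 then 1 else Complex.exp (a * s) - 1) * iterated v s / s = _
    rw [ih]

theorem I_eq {w : List Qb} (hw : Adm w) : I (w.map io) = uv w := by
  rw [I, iterated_eq, II_one w hw]; rfl

theorem base_eq : baseField = FP Sn := by
  rw [baseField, FP, gP, GE]
  congr 2
  ext z
  constructor
  · rintro ⟨w, hw, hS, rfl⟩
    obtain ⟨w', rfl, hw'⟩ := exists_word (w := w) hw
    refine ⟨w', hw', ?_, I_eq hw'⟩
    rcases hS with h | h
    · left
      intro h0
      exact h (List.mem_map.2 ⟨0, h0, map_zero io⟩)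
    · right
      intro c hc hn
      exact h (io c) (List.mem_map.2 ⟨c, hc, rfl⟩) hn
  · rintro ⟨w, hw, hS, rfl⟩
    refine ⟨w.map io, wd_map hw, ?_, (I_eq hw).symm⟩
    rcases hS with h | h
    · left
      intro h0
      obtain ⟨c, hc, hc0⟩ := List.mem_map.1 h0
      have : c = 0 := io.injective (by rw [hc0, map_zero])
      exact h (this ▸ hc)
    · right
      intro a ha hn
      obtain ⟨c, hc, rfl⟩ := List.mem_map.1 ha
      exact h c hc hn

theorem algebraicOver_iff (z : ℂ) : AlgebraicOver z ↔ IsAlgebraic (FP Sn) z := by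
  rw [AlgebraicOver, base_eq]

theorem algebraicOverAnd_iff {τ : Type} (y : τ → ℂ) (z : ℂ) : AlgebraicOverAnd y z ↔ z ∈ clf (FP Sn) (range y) := by
  rw [AlgebraicOverAnd, base_eq, mem_clf]

theorem mem_Vx {β : ℝ} (h : β ∈ exponents) : β ∈ Vx := ⟨(algebraicOver_iff _).1 h.1, h.2⟩

theorem mem_exponents {β : ℝ} (h : β ∈ Vx) : β ∈ exponents := ⟨(algebraicOver_iff _).2 h.1, h.2⟩

theorem map_pre (k : ℕ) (v : List Qb) : (Pool.Agent.H18.Sq.pre k v).map io = List.replicate k 0 ++ v.map io := by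
  induction k with
  | zero => rfl
  | succ k ih =>
    rw [Pool.Agent.H18.Sq.pre_succ, List.map_cons, ih, map_zero, List.replicate_succ, List.cons_append]

theorem number_eq {x : ℝ} (hx : 0 < x ∧ IsAlgebraic ℚ x) (β : ℝ) (q : ℕ × ℕ) : number x β q = nP x β q := by
  by_cases h : β = 0
  · subst h
    rw [nP_zero hx.2, number, if_pos rfl, ← I_eq (adm_zw (ng_ne hx.2 hx.1) _ _), zw, map_pre, List.map_replicate, io_ng]
  · rw [number, if_neg h, nP, if_neg h]
    rfl

section

variable {X : Set ℝ} (hX : PositiveAlgebraic X) (hXX : Separated X)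

/-- the names -/
def dec : (X × exponents) × (ℕ × ℕ) → (X × Vx) × (ℕ × ℕ) := Prod.map (Prod.map id fun β => ⟨β.1, mem_Vx β.2⟩) id

theorem dec_injective : Function.Injective (dec (X := X)) :=
  Function.Injective.prodMap (Function.Injective.prodMap Function.injective_id
    (fun _ _ h => Subtype.ext (Subtype.mk.inj h))) Function.injective_id

include hX in
theorem value_dec (p : (X × exponents) × (ℕ × ℕ)) : value p = tP (dec p) := by
  obtain ⟨⟨x, ⟨β, hβ⟩⟩, q⟩ := p
  exact number_eq (hX x.1 x.2) β q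

include hXX

theorem separated : ∀ x ∈ X, ∀ y ∈ X, ∀ β ∈ Vx, x = y * Real.exp β → x = y :=
  fun x hx y hy β hβ => hXX x hx y hy β (mem_exponents hβ)

include hX

theorem degree {r : ℕ} {y : Fin r → ℂ} (hy : ∀ x ∈ X, AlgebraicOverAnd y ((E1 x : ℝ) : ℂ))
    (A : Finset ((X × exponents) × (ℕ × ℕ))) : (A.card : Cardinal) ≤ Algebra.trdeg baseField
      (IntermediateField.adjoin baseField (range y ∪ value '' (A : Set ((X × exponents) × (ℕ × ℕ))))) := by
  have hc : ∀ x ∈ X, ((Pool.Agent.H18.Po.E1 x : ℝ) : ℂ) ∈ clf (FP Sn) (range y) := fun x hx =>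
    (algebraicOverAnd_iff _ _).1 (hy x hx)
  have h := deg_P hX (separated hXX) hc (A.map ⟨dec, dec_injective⟩)
  rw [Finset.card_map] at h
  have e : tP '' ((A.map ⟨dec, dec_injective⟩ : Finset ((X × Vx) × (ℕ × ℕ))) : Set ((X × Vx) × (ℕ × ℕ))) =
      value '' (A : Set ((X × exponents) × (ℕ × ℕ))) := by
    rw [Finset.coe_map, ← image_comp]
    refine image_congr fun p _ => ?_
    exact (value_dec hX p).symm
  rw [e] at h
  rw [base_eq]
  exact h

theorem count {r : ℕ} {y : Fin r → ℂ} (hy : ∀ x ∈ X, AlgebraicOverAnd y ((E1 x : ℝ) : ℂ)) :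
    (algebraicOnes y (value (X := X))).encard ≤ (r : ℕ∞) := by
  have hc : ∀ x ∈ X, ((Pool.Agent.H18.Po.E1 x : ℝ) : ℂ) ∈ clf (FP Sn) (range y) := fun x hx =>
    (algebraicOverAnd_iff _ _).1 (hy x hx)
  have h := cnt_P hX (separated hXX) hc
  rw [Fintype.card_fin] at h
  refine le_trans ?_ h
  have hinj : Function.Injective (Sum.map id (dec (X := X)) : Fin r ⊕ ((X × exponents) × (ℕ × ℕ)) →
      Fin r ⊕ ((X × Vx) × (ℕ × ℕ))) :=
    Function.Injective.sumMap Function.injective_id dec_injective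
  rw [← hinj.encard_image]
  refine encard_le_encard ?_
  rintro _ ⟨n, hn, rfl⟩
  rcases n with j | i
  · exact (algebraicOver_iff _).1 hn
  · show IsAlgebraic (FP Sn) (tP (dec i))
    rw [← value_dec hX]
    exact (algebraicOver_iff _).1 hn

end

theorem multiple_mem {β : ℝ} (h1 : AlgebraicOver β) (h2 : IsAlgebraic ℚ (Real.exp β)) (r : ℚ) : (r : ℝ) * β ∈ exponents := by
  refine ⟨?_, ?_⟩
  · show IsAlgebraic baseField (((r : ℝ) * β : ℝ) : ℂ)
    push_cast
    exact (isAlgebraic_algebraMap (r : baseField)).mul h1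
  · have h3 : Real.exp ((r : ℝ) * β) ^ r.den = Real.exp β ^ r.num := by
      rw [← Real.exp_nat_mul, ← Real.rpow_intCast, ← Real.exp_mul]
      congr 1
      have : (r.den : ℝ) * (r : ℝ) = r.num := by exact_mod_cast Rat.den_mul_eq_num r
      rw [← mul_assoc, this, mul_comm]
    refine IsAlgebraic.of_pow (n := r.den) r.den_pos ?_
    rw [h3]
    have h4 : ∀ z : ℝ, IsAlgebraic ℚ z ↔ z ∈ algebraicClosure ℚ ℝ := fun z => by
      rw [mem_algebraicClosure_iff]
    rw [h4]
    exact zpow_mem ((h4 _).1 h2) _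

theorem single_separated (x : ℝ) : Separated {x} := by
  rintro y rfl z rfl β _ _
  rfl

/-- the statement for one point -/
def OnePoint (x β : ℝ) : Prop :=
  (∀ A : Finset (ℚ × (ℕ × ℕ)), (A.card : Cardinal) ≤ Algebra.trdeg baseField (IntermediateField.adjoin baseField
    ({((E1 x : ℝ) : ℂ)} ∪ multipleValue x β '' (A : Set (ℚ × (ℕ × ℕ)))))) ∧
  (algebraicOnes (fun _ : Fin 1 => ((E1 x : ℝ) : ℂ)) (multipleValue x β)).encard ≤ 1

theorem onePoint {β : ℝ} (hβ : β ≠ 0) (h1 : AlgebraicOver β) {x : ℝ} (hx : 0 < x ∧ IsAlgebraic ℚ x)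
    (h2 : IsAlgebraic ℚ (Real.exp β)) : OnePoint x β := by
  have hX : PositiveAlgebraic {x} := by
    rintro _ rfl
    exact hx
  let g : ℚ × (ℕ × ℕ) → (({x} : Set ℝ) × exponents) × (ℕ × ℕ) := fun p => ((⟨x, rfl⟩, ⟨(p.1 : ℝ) * β, multiple_mem h1 h2 p.1⟩), p.2)
  have hg : Function.Injective g := by
    rintro ⟨r, p⟩ ⟨s, q⟩ h
    have e1 : p = q := congrArg Prod.snd h
    have e2 : (r : ℝ) * β = (s : ℝ) * β := congrArg (fun z => (z.1.2 : ℝ)) h
    have e3 : r = s := by exact_mod_cast mul_right_cancel₀ hβ e2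
    rw [e1, e3]
  have hy : ∀ z ∈ ({x} : Set ℝ), AlgebraicOverAnd (fun _ : Fin 1 => ((E1 x : ℝ) : ℂ)) ((E1 z : ℝ) : ℂ) := by
    intro z hz
    rw [mem_singleton_iff.1 hz]
    exact isAlgebraic_algebraMap (⟨_, IntermediateField.subset_adjoin _ _ ⟨0, rfl⟩⟩ :
      IntermediateField.adjoin baseField (range fun _ : Fin 1 => ((E1 x : ℝ) : ℂ)))
  refine ⟨fun A => ?_, ?_⟩
  · have h := degree hX (single_separated x) hy (A.map ⟨g, hg⟩)
    rw [Finset.card_map] at h
    have e : value '' ((A.map ⟨g, hg⟩ : Finset ((({x} : Set ℝ) × exponents) × (ℕ × ℕ))) : Set ((({x} : Set ℝ) × exponents) × (ℕ × ℕ))) =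
        multipleValue x β '' (A : Set (ℚ × (ℕ × ℕ))) := by
      rw [Finset.coe_map, ← image_comp]
      rfl
    rw [e, range_const] at h
    exact h
  · have h := count hX (single_separated x) hy
    rw [Nat.cast_one] at h
    refine le_trans ?_ h
    have hinj : Function.Injective (Sum.map (id : Fin 1 → Fin 1) g) := Function.Injective.sumMap Function.injective_id hg
    rw [← hinj.encard_image]
    refine encard_le_encard ?_
    rintro _ ⟨n, hn, rfl⟩
    rcases n with j | i
    · exact hn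
    · exact hn

theorem exp_one_mem : AlgebraicOver (Real.exp 1) := by
  have h : Complex.exp 1 ∈ baseField := IntermediateField.subset_adjoin _ _ (Or.inl (Or.inr ⟨1, isAlgebraic_one, rfl⟩))
  have h2 : ((Real.exp 1 : ℝ) : ℂ) = Complex.exp 1 := by
    push_cast
    rfl
  show IsAlgebraic baseField ((Real.exp 1 : ℝ) : ℂ)
  rw [h2]
  exact isAlgebraic_algebraMap (⟨_, h⟩ : baseField)

theorem one_of {x β : ℝ} (h : OnePoint x β) {m n : Fin 1 ⊕ (ℚ × (ℕ × ℕ))} (hmn : m ≠ n) :
    ¬ (m ∈ algebraicOnes (fun _ : Fin 1 => ((E1 x : ℝ) : ℂ)) (multipleValue x β) ∧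
      n ∈ algebraicOnes (fun _ : Fin 1 => ((E1 x : ℝ) : ℂ)) (multipleValue x β)) := by
  rintro ⟨h1, h2⟩
  exact hmn (encard_le_one_iff.1 h.2 m n h1 h2)

theorem result :
    -- (1)
    (∀ X : Set ℝ, PositiveAlgebraic X → Separated X → ∀ (r : ℕ) (y : Fin r → ℂ),
      (∀ x ∈ X, AlgebraicOverAnd y ((E1 x : ℝ) : ℂ)) →
      (∀ A : Finset ((X × exponents) × (ℕ × ℕ)), (A.card : Cardinal) ≤ Algebra.trdeg baseField
        (IntermediateField.adjoin baseField (range y ∪ value '' (A : Set ((X × exponents) × (ℕ × ℕ)))))) ∧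
      (algebraicOnes y (value (X := X))).encard ≤ (r : ℕ∞)) ∧
    -- (2)
    (∀ β : ℝ, β ≠ 0 → AlgebraicOver β → Transcendental ℚ (Real.exp β) ∨
      ∀ x : ℝ, 0 < x → IsAlgebraic ℚ x → OnePoint x β) ∧
    -- (3)
    (Transcendental ℚ (Real.exp (Real.exp 1)) ∨ ∀ x : ℝ, 0 < x → IsAlgebraic ℚ x → OnePoint x (Real.exp 1)) ∧
    -- (4)
    (∀ x : ℝ, 0 < x → IsAlgebraic ℚ x → ∀ (r : ℚ) (k m : ℕ), r ≠ 0 → 1 ≤ m →
      (Transcendental ℚ (Real.exp (Real.exp 1)) ∨ Transcendental ℚ (E1 x) ∨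
        Transcendental ℚ (∫ s in (0 : ℝ)..(r : ℝ) * Real.exp 1, s ^ k * E1 (x * Real.exp s) ^ m)) ∧
      ∀ (r' : ℚ) (k' m' : ℕ), r' ≠ 0 → 1 ≤ m' → (r, k, m) ≠ (r', k', m') →
        (Transcendental ℚ (Real.exp (Real.exp 1)) ∨
          Transcendental ℚ (∫ s in (0 : ℝ)..(r : ℝ) * Real.exp 1, s ^ k * E1 (x * Real.exp s) ^ m) ∨
          Transcendental ℚ (∫ s in (0 : ℝ)..(r' : ℝ) * Real.exp 1, s ^ k' * E1 (x * Real.exp s) ^ m'))) := by
  have h2 : ∀ β : ℝ, β ≠ 0 → AlgebraicOver β → Transcendental ℚ (Real.exp β) ∨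
      ∀ x : ℝ, 0 < x → IsAlgebraic ℚ x → OnePoint x β := by
    intro β hβ h1
    by_cases h : IsAlgebraic ℚ (Real.exp β)
    · exact Or.inr fun x hx hxa => onePoint hβ h1 ⟨hx, hxa⟩ h
    · exact Or.inl h
  have h3 := h2 (Real.exp 1) (Real.exp_pos 1).ne' exp_one_mem
  have halg : ∀ z : ℝ, IsAlgebraic ℚ z → AlgebraicOver (z : ℂ) := by
    intro z hz
    have h4 : (z : ℂ) ∈ baseField := IntermediateField.subset_adjoin _ _ (Or.inl (Or.inl (hz.algebraMap (A := ℂ))))
    exact isAlgebraic_algebraMap (⟨_, h4⟩ : baseField)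
  have hval : ∀ (x : ℝ) (r : ℚ) (k m : ℕ), r ≠ 0 → 1 ≤ m →
      multipleValue x (Real.exp 1) (r, (k, m - 1)) =
        ((∫ s in (0 : ℝ)..(r : ℝ) * Real.exp 1, s ^ k * E1 (x * Real.exp s) ^ m : ℝ) : ℂ) := by
    intro x r k m hr hm
    have h5 : (r : ℝ) * Real.exp 1 ≠ 0 := mul_ne_zero (by exact_mod_cast hr) (Real.exp_pos 1).ne'
    rw [multipleValue, number, if_neg h5, Nat.sub_add_cancel hm]
  refine ⟨fun X hX hXX r y hy => ⟨degree hX hXX hy, count hX hXX hy⟩, h2, h3, ?_⟩
  intro x hx hxa r k m hr hm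
  rcases h3 with h3 | h3
  · exact ⟨Or.inl h3, fun _ _ _ _ _ _ => Or.inl h3⟩
  · have h4 := h3 x hx hxa
    refine ⟨Or.inr ?_, fun r' k' m' hr' hm' hne => Or.inr ?_⟩
    · by_contra hcon
      rw [not_or, Transcendental, Transcendental, not_not, not_not] at hcon
      refine one_of h4 (m := Sum.inl 0) (n := Sum.inr (r, (k, m - 1))) (by simp) ⟨halg _ hcon.1, ?_⟩
      show AlgebraicOver (multipleValue x (Real.exp 1) (r, (k, m - 1)))
      rw [hval x r k m hr hm]
      exact halg _ hcon.2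
    · by_contra hcon
      rw [not_or, Transcendental, Transcendental, not_not, not_not] at hcon
      refine one_of h4 (m := Sum.inr (r, (k, m - 1))) (n := Sum.inr (r', (k', m' - 1))) ?_ ⟨?_, ?_⟩
      · intro h
        have h5 := Sum.inr_injective h
        simp only [Prod.mk.injEq] at h5
        apply hne
        rw [h5.1, h5.2.1, show m = m' by omega]
      · show AlgebraicOver (multipleValue x (Real.exp 1) (r, (k, m - 1)))
        rw [hval x r k m hr hm]
        exact halg _ hcon.1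
      · show AlgebraicOver (multipleValue x (Real.exp 1) (r', (k', m' - 1)))
        rw [hval x r' k' m' hr' hm']
        exact halg _ hcon.2

end Pool.Agent.Results.MP_58ae59_nt.ExponentialIntegralPowersUpToE
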