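import Mathlib
import Pool.Agent.H18.It.Fin

set_option autoImplicit false

/-!
# `e^e` and the iterated integrals of the functions `exp (a e^s)` up to `e`

For complex numbers `a_1, …, a_n` and real `b` let `J(a_1, …, a_n; b)` be the iterated integral of
`exp (a_1 e^(s_1)) ⋯ exp (a_n e^(s_n))` over `b > s_1 > … > s_n > 0` (it is `1` for the empty word), and let
`I(a_1, …, a_n)` be the iterated integral of the forms `ω_{a_1}(t_1), …, ω_{a_n}(t_n)` over
`1 > t_1 > … > t_n > 0`, where `ω_0 = dt / t` and `ω_a = (exp (a t) - 1) dt / t` for `a ≠ 0`. A word is admissible if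
all its letters are algebraic and the last letter is not `0`.

Let `Λ` be a set of nonzero algebraic numbers and let `K_Λ` be the field which is generated by all algebraic numbers,
all numbers `exp β`, `β` algebraic, and all numbers `I(w)`, `w` admissible without letters in `Λ`. (If `Λ` is the set
of all nonzero algebraic numbers then `K_Λ` is the field `E` generated by all algebraic `β` and all `exp β`.)
Let `V_Λ` be the set of the real numbers `b ≥ 0` in `K_Λ` such that `e^b` is algebraic and `e^b Λ ⊆ Λ`. Put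
`N(b, w) = J(w; b)` for `b ≠ 0` and `N(0, w) = I(w)`.

Let `P` be a set of pairs `(b, w)`, `b` in `V_Λ`, `w` admissible with letters in `Λ ∪ {0}`, such that the words
`e^b w` (all letters are multiplied by `e^b`) are pairwise distinct.

(1) The numbers `N(b, w)`, `(b, w)` in `P`, are linearly independent over `K_Λ`.

(2) Every linear combination of them with coefficients in `K_Λ` in which a coefficient of a nonempty word is not `0`
is transcendental over `K_Λ`.

(3) The numbers `N(b, 0^k a)`, `k ≥ 0`, are algebraically independent over `K_Λ` for `(b, a)` in a set of pairs `b` in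
`V_Λ`, `a` in `Λ`, with distinct `e^b a`.

(4) Let `Λ` be closed under the multiplication by positive real algebraic numbers and let `b > 0` be real and in `K_Λ`.
Then `e^b` is transcendental, or the numbers `J(w; b)`, `w` admissible with letters in `Λ ∪ {0}`, are linearly
independent over `K_Λ`, and all combinations as in (2) of them are transcendental over `K_Λ`.

(5) For all rational `r > 0`, `e^(re)` is transcendental, or the numbers `J(w; re)`, `w` admissible, are linearly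
independent over `E` and all combinations of them over `E`, in which the coefficient of a nonempty word is not `0`,
are transcendental over `E`.

(6) For every nonempty admissible word `w` at least one of the two numbers `e^e` and `J(w; e)` is transcendental.
-/

namespace Pool.Agent.Results.MP_58ae59_nt.IteratedIntegralsUpToE

open Set

/-- `J(w; b)` -/
noncomputable def J : List ℂ → ℝ → ℂ
  | [], _ => 1
  | a :: v, b => ∫ s in (0 : ℝ)..b, Complex.exp (a * Complex.exp s) * J v s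

/-- the iterated integral of `ω_{a_1}(t_1), …, ω_{a_n}(t_n)` over `t > t_1 > … > t_n > 0` -/
noncomputable def iterated : List ℂ → ℝ → ℂ
  | [], _ => 1
  | a :: v, t => ∫ s in (0 : ℝ)..t, (if a = 0 then 1 else Complex.exp (a * s) - 1) * iterated v s / s

/-- `I(w)` -/
noncomputable def I (w : List ℂ) : ℂ := iterated w 1

/-- the letters are algebraic and the last one is not zero -/
def Admissible (w : List ℂ) : Prop := (∀ a ∈ w, IsAlgebraic ℚ a) ∧ ∀ h : w ≠ [], w.getLast h ≠ 0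

/-- the field `K_Λ` -/
noncomputable def baseField (Λ : Set ℂ) : IntermediateField ℚ ℂ := IntermediateField.adjoin ℚ
  ({z | IsAlgebraic ℚ z} ∪ {z | ∃ β : ℂ, IsAlgebraic ℚ β ∧ z = Complex.exp β} ∪
    {z | ∃ w : List ℂ, Admissible w ∧ (∀ a ∈ w, a ∉ Λ) ∧ z = I w})

/-- the field `E` -/
noncomputable def expField : IntermediateField ℚ ℂ := IntermediateField.adjoin ℚ
  ({z | IsAlgebraic ℚ z} ∪ {z | ∃ β : ℂ, IsAlgebraic ℚ β ∧ z = Complex.exp β})

/-- the set `V_Λ` -/
def V (Λ : Set ℂ) : Set ℝ :=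
  {b | 0 ≤ b ∧ (b : ℂ) ∈ baseField Λ ∧ IsAlgebraic ℚ (Complex.exp b) ∧ ∀ a ∈ Λ, Complex.exp b * a ∈ Λ}

open Classical in
/-- `N(b, w)` -/
noncomputable def N (b : ℝ) (w : List ℂ) : ℂ := if b = 0 then I w else J w b

/-- admissible words with letters in `Λ ∪ {0}` -/
def WordIn (Λ : Set ℂ) (w : List ℂ) : Prop := Admissible w ∧ ∀ a ∈ w, a = 0 ∨ a ∈ Λ

/-- the sets `P` of pairs `(b, w)` with distinct words `e^b w` -/
def Good (Λ : Set ℂ) (P : Set (ℝ × List ℂ)) : Prop :=
  (∀ p ∈ P, p.1 ∈ V Λ ∧ WordIn Λ p.2) ∧ InjOn (fun p : ℝ × List ℂ => p.2.map fun a => Complex.exp p.1 * a) P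

/-- the word `0^k a` -/
def zerosThen (k : ℕ) (a : ℂ) : List ℂ := List.replicate k 0 ++ [a]

theorem J_eq (w : List ℂ) : ∀ t : ℝ, J w t = Pool.Agent.H18.It.JJ w t := by
  induction w with
  | nil => intro t; rfl
  | cons a v ih =>
    intro t
    rw [J, Pool.Agent.H18.It.JJ]
    refine intervalIntegral.integral_congr fun s _ => ?_
    show Complex.exp (a * Complex.exp s) * J v s = _
    rw [ih]

open Pool.Agent.N902.EW in
theorem iterated_eq (w : List ℂ) : ∀ t : ℝ, iterated w t = II w t := by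
  induction w with
  | nil => intro t; rfl
  | cons a v ih =>
    intro t
    rw [iterated, II]
    refine intervalIntegral.integral_congr fun s _ => ?_
    show (if a = 0 then 1 else Complex.exp (a * s) - 1) * iterated v s / s = _
    rw [ih]

open Pool.Agent.N902.EW Pool.Agent.H18.It

/-- the set of the letters in the field of algebraic numbers -/
def SS (Λ : Set ℂ) : Set Qb := {c | io c ∈ Λ}

theorem I_eq {w : List Qb} (hw : Adm w) : I (w.map io) = uv w := by
  rw [I, iterated_eq, II_one w hw]; rfl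

theorem base_eq (Λ : Set ℂ) : baseField Λ = EL (SS Λ) := by
  rw [baseField, EL, gL, GE]
  congr 2
  ext z
  constructor
  · rintro ⟨w, hw, hΛ, rfl⟩
    obtain ⟨w', rfl, hw'⟩ := exists_word (w := w) hw
    exact ⟨w', hw', fun c hc h => hΛ (io c) (List.mem_map.2 ⟨c, hc, rfl⟩) h, I_eq hw'⟩
  · rintro ⟨w, hw, hS, rfl⟩
    refine ⟨w.map io, wd_map hw, fun a ha h => ?_, (I_eq hw).symm⟩
    obtain ⟨c, hc, rfl⟩ := List.mem_map.1 ha
    exact hS c hc h

theorem exp_eq : expField = E0 := rfl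

/-- the set of all nonzero algebraic numbers -/
def allLetters : Set ℂ := {a | IsAlgebraic ℚ a ∧ a ≠ 0}

theorem base_all : baseField allLetters = expField := by
  refine le_antisymm ?_ (IntermediateField.adjoin.mono _ _ _ subset_union_left)
  refine IntermediateField.adjoin_le_iff.2 ?_
  rintro z (hz | ⟨w, hw, hΛ, rfl⟩)
  · exact IntermediateField.subset_adjoin _ _ hz
  · have h0 : ∀ a ∈ w, a = 0 := fun a ha => by
      by_contra h
      exact hΛ a ha ⟨hw.1 a ha, h⟩
    have hnil : w = [] := by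
      by_contra h
      exact hw.2 h (h0 _ (List.getLast_mem h))
    rw [hnil]
    show I [] ∈ expField
    rw [I, iterated]
    exact one_mem _

theorem V_sub {Λ : Set ℂ} (hΛ : ∀ a ∈ Λ, IsAlgebraic ℚ a) {b : ℝ} (hb : b ∈ V Λ) : b ∈ VV (SS Λ) := by
  refine ⟨hb.1, base_eq Λ ▸ hb.2.1, hb.2.2.1, fun c hc => ?_⟩
  have h1 := hb.2.2.2 (io c) hc
  obtain ⟨d, hd⟩ := mem_range_io (hΛ _ h1)
  exact ⟨d, by show io d ∈ Λ; rw [hd]; exact h1, hd⟩

theorem word_exists {Λ : Set ℂ} {w : List ℂ} (hw : WordIn Λ w) : ∃ w' : List Qb, w'.map io = w ∧ AL (SS Λ) w' := by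
  obtain ⟨w', rfl, hw'⟩ := exists_word (w := w) hw.1
  refine ⟨w', rfl, hw', fun c hc => ?_⟩
  rcases hw.2 (io c) (List.mem_map.2 ⟨c, hc, rfl⟩) with h | h
  · left; exact io.injective (by rw [h, map_zero])
  · right; exact h

theorem N_eq {b : ℝ} {w : List Qb} (hw : Adm w) : N b (w.map io) = NN b w := by
  rw [N, NN, I_eq hw, J_eq]

theorem part1 {Λ : Set ℂ} (hΛ : ∀ a ∈ Λ, IsAlgebraic ℚ a ∧ a ≠ 0) {P : Set (ℝ × List ℂ)} (hP : Good Λ P) :
    LinearIndependent (baseField Λ) (fun p : P => N p.1.1 p.1.2) := by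
  rw [base_eq Λ]
  choose w hw hw' using fun p : P => word_exists (hP.1 p.1 p.2).2
  have h1 := li_NN (S := SS Λ) (fun p : P => p.1.1) (fun p => V_sub (fun a ha => (hΛ a ha).1) (hP.1 p.1 p.2).1) w hw'
    (fun p q h => by
      simp only [hw] at h
      exact Subtype.ext (hP.2 p.2 q.2 h))
  have e : (fun p : P => N p.1.1 p.1.2) = fun p : P => NN p.1.1 (w p) := by
    funext p
    rw [← N_eq (hw' p).1, hw]
  rw [e]
  exact h1

theorem part2 {Λ : Set ℂ} (hΛ : ∀ a ∈ Λ, IsAlgebraic ℚ a ∧ a ≠ 0) {P : Set (ℝ × List ℂ)} (hP : Good Λ P) :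
    ∀ g : P →₀ baseField Λ, (∃ p : P, g p ≠ 0 ∧ p.1.2 ≠ []) →
      Transcendental (baseField Λ) (∑ p ∈ g.support, g p • N p.1.1 p.1.2) := by
  rw [base_eq Λ]
  rintro g ⟨p1, hp1, hne⟩
  choose w hw hw' using fun p : P => word_exists (hP.1 p.1 p.2).2
  have h1 := tr_NN (S := SS Λ) (fun p : P => p.1.1) (fun p => V_sub (fun a ha => (hΛ a ha).1) (hP.1 p.1 p.2).1) w hw'
    (fun p q h => by
      simp only [hw] at h
      exact Subtype.ext (hP.2 p.2 q.2 h)) g.support g p1 (Finsupp.mem_support_iff.2 hp1) hp1 (fun h => hne (by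
      rw [← hw p1, h]; rfl))
  have e : ∀ p : P, N p.1.1 p.1.2 = NN p.1.1 (w p) := by
    intro p
    rw [← N_eq (hw' p).1, hw]
  simp only [e]
  exact h1

theorem zt_eq (k : ℕ) (c : Qb) : zerosThen k (io c) = (zs c k).map io := by
  induction k with
  | zero => rfl
  | succ k ih =>
    have h1 : zerosThen (k + 1) (io c) = 0 :: zerosThen k (io c) := by
      rw [zerosThen, zerosThen, List.replicate_succ, List.cons_append]
    have h2 : (zs c (k + 1)).map io = io 0 :: (zs c k).map io := rfl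
    rw [h1, h2, ih, map_zero]

theorem part3 {Λ : Set ℂ} (hΛ : ∀ a ∈ Λ, IsAlgebraic ℚ a ∧ a ≠ 0) {Q : Set (ℝ × ℂ)} (hQ : ∀ q ∈ Q, q.1 ∈ V Λ ∧ q.2 ∈ Λ)
    (hinj : InjOn (fun q : ℝ × ℂ => Complex.exp q.1 * q.2) Q) :
    AlgebraicIndependent (baseField Λ) (fun p : Q × ℕ => N p.1.1.1 (zerosThen p.2 p.1.1.2)) := by
  rw [base_eq Λ]
  choose c hc using fun q : Q => mem_range_io (hΛ _ (hQ q.1 q.2).2).1
  have hS : ∀ c ∈ SS Λ, c ≠ 0 := by
    rintro c hc rfl
    have hc' : io 0 ∈ Λ := hc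
    exact (hΛ _ hc').2 (map_zero io)
  have h1 := ai_NN (S := SS Λ) hS (fun q : Q => q.1.1) (fun q => V_sub (fun a ha => (hΛ a ha).1) (hQ q.1 q.2).1) c
    (fun q => by show io (c q) ∈ Λ; rw [hc]; exact (hQ q.1 q.2).2) (fun q q' h => by
      simp only [hc] at h
      exact Subtype.ext (hinj q.2 q'.2 h))
  have e : (fun p : Q × ℕ => N p.1.1.1 (zerosThen p.2 p.1.1.2)) = fun p : Q × ℕ => NN p.1.1.1 (zs (c p.1) p.2) := by
    funext p
    have hne : c p.1 ≠ 0 := fun h => by
      have h2 := hc p.1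
      rw [h, map_zero] at h2
      exact (hΛ _ (hQ p.1.1 p.1.2).2).2 h2.symm
    rw [← hc p.1, zt_eq, N_eq (adm_zs hne p.2)]
  rw [e]
  exact h1

theorem alg_cexp {b : ℝ} (h : IsAlgebraic ℚ (Real.exp b)) : IsAlgebraic ℚ (Complex.exp b) := by
  rw [← Complex.ofReal_exp]
  exact h.algebraMap (A := ℂ)

theorem mem_V {Λ : Set ℂ} (hcone : ∀ t : ℝ, 0 < t → IsAlgebraic ℚ t → ∀ a ∈ Λ, (t : ℂ) * a ∈ Λ) {b : ℝ} (hb : 0 < b)
    (hbK : (b : ℂ) ∈ baseField Λ) (h : IsAlgebraic ℚ (Real.exp b)) : b ∈ V Λ :=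
  ⟨hb.le, hbK, alg_cexp h, fun a ha => by
    rw [← Complex.ofReal_exp]
    exact hcone _ (Real.exp_pos b) h a ha⟩

/-- the words as pairs with a fixed first entry -/
theorem good_fixed {Λ : Set ℂ} {b : ℝ} (hb : b ∈ V Λ) : Good Λ {p | p.1 = b ∧ WordIn Λ p.2} := by
  refine ⟨fun p hp => ⟨hp.1 ▸ hb, hp.2⟩, ?_⟩
  rintro ⟨b1, w⟩ ⟨h1, _⟩ ⟨b2, v⟩ ⟨h2, _⟩ h
  have e1 : b1 = b := h1
  have e2 : b2 = b := h2
  subst e1 e2
  have h3 : w.map (fun a => Complex.exp b2 * a) = v.map (fun a => Complex.exp b2 * a) := h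
  have h4 : w = v := List.map_injective_iff.2 (fun x y hxy => mul_left_cancel₀ (Complex.exp_ne_zero _) hxy) h3
  rw [h4]

/-- the statement that the numbers `J(w; b)` are linearly independent over `K` and all combinations which are not
constant are transcendental over `K` -/
def FreeOver (K : IntermediateField ℚ ℂ) (Λ : Set ℂ) (b : ℝ) : Prop :=
  LinearIndependent K (fun w : {w : List ℂ // WordIn Λ w} => J w.1 b) ∧
  ∀ g : {w : List ℂ // WordIn Λ w} →₀ K, (∃ w, g w ≠ 0 ∧ w.1 ≠ []) →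
    Transcendental K (∑ w ∈ g.support, g w • J w.1 b)

theorem free_of {Λ : Set ℂ} (hΛ : ∀ a ∈ Λ, IsAlgebraic ℚ a ∧ a ≠ 0) {b : ℝ} (hb0 : b ≠ 0) (hb : b ∈ V Λ) :
    FreeOver (baseField Λ) Λ b := by
  classical
  have hG := good_fixed hb
  let f : {w : List ℂ // WordIn Λ w} → ({p | p.1 = b ∧ WordIn Λ p.2} : Set (ℝ × List ℂ)) :=
    fun w => ⟨(b, w.1), rfl, w.2⟩
  have hf : Function.Injective f := fun w v h => Subtype.ext (congrArg (fun z => z.1.2) h)
  have hN : ∀ w : {w : List ℂ // WordIn Λ w}, J w.1 b = N (f w).1.1 (f w).1.2 := by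
    intro w
    show _ = N b w.1
    rw [N, if_neg hb0]
  refine ⟨?_, fun g hg => ?_⟩
  · have h1 := (part1 hΛ hG).comp f hf
    have e : (fun w : {w : List ℂ // WordIn Λ w} => J w.1 b) =
        (fun p : ({p | p.1 = b ∧ WordIn Λ p.2} : Set (ℝ × List ℂ)) => N p.1.1 p.1.2) ∘ f := funext hN
    rw [e]
    exact h1
  · obtain ⟨w1, hw1, hne⟩ := hg
    have h2 := part2 hΛ hG (g.mapDomain f) ⟨f w1, by rwa [Finsupp.mapDomain_apply hf], hne⟩
    have e : (∑ p ∈ (g.mapDomain f).support, (g.mapDomain f) p • N p.1.1 p.1.2) = ∑ w ∈ g.support, g w • J w.1 b := by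
      rw [Finsupp.mapDomain_support_of_injective hf, Finset.sum_image hf.injOn]
      refine Finset.sum_congr rfl fun w _ => ?_
      rw [Finsupp.mapDomain_apply hf, hN]
    rw [e] at h2
    exact h2

theorem part4 {Λ : Set ℂ} (hΛ : ∀ a ∈ Λ, IsAlgebraic ℚ a ∧ a ≠ 0)
    (hcone : ∀ t : ℝ, 0 < t → IsAlgebraic ℚ t → ∀ a ∈ Λ, (t : ℂ) * a ∈ Λ) {b : ℝ} (hb : 0 < b)
    (hbK : (b : ℂ) ∈ baseField Λ) : Transcendental ℚ (Real.exp b) ∨ FreeOver (baseField Λ) Λ b := by
  by_cases h : IsAlgebraic ℚ (Real.exp b)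
  · exact Or.inr (free_of hΛ hb.ne' (mem_V hcone hb hbK h))
  · exact Or.inl h

theorem all_cone : ∀ t : ℝ, 0 < t → IsAlgebraic ℚ t → ∀ a ∈ allLetters, (t : ℂ) * a ∈ allLetters := by
  intro t ht hta a ha
  exact ⟨(hta.algebraMap (A := ℂ)).mul ha.1, mul_ne_zero (by exact_mod_cast ht.ne') ha.2⟩

theorem re_mem (r : ℚ) : (((r : ℝ) * Real.exp 1 : ℝ) : ℂ) ∈ expField := by
  have h1 : Complex.exp 1 ∈ expField := IntermediateField.subset_adjoin _ _ (Or.inr ⟨1, isAlgebraic_one, rfl⟩)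
  have h2 : ((r : ℝ) : ℂ) ∈ expField := by
    have : ((r : ℝ) : ℂ) = algebraMap ℚ ℂ r := by simp
    rw [this]
    exact expField.algebraMap_mem r
  rw [Complex.ofReal_mul, Complex.ofReal_exp, Complex.ofReal_one]
  exact mul_mem h2 h1

theorem part5 {b : ℝ} (hb : 0 < b) (hbE : (b : ℂ) ∈ expField) :
    Transcendental ℚ (Real.exp b) ∨ FreeOver expField allLetters b := by
  have := part4 (Λ := allLetters) (fun a ha => ha) all_cone hb (by rw [base_all]; exact hbE)
  rwa [base_all] at this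

theorem word_all {w : List ℂ} (hw : Admissible w) : WordIn allLetters w :=
  ⟨hw, fun a ha => by
    by_cases h : a = 0
    · exact Or.inl h
    · exact Or.inr ⟨hw.1 a ha, h⟩⟩

theorem result :
    (∀ Λ : Set ℂ, (∀ a ∈ Λ, IsAlgebraic ℚ a ∧ a ≠ 0) →
      -- (1)
      (∀ P : Set (ℝ × List ℂ), Good Λ P → LinearIndependent (baseField Λ) (fun p : P => N p.1.1 p.1.2)) ∧
      -- (2)
      (∀ P : Set (ℝ × List ℂ), Good Λ P → ∀ g : P →₀ baseField Λ, (∃ p : P, g p ≠ 0 ∧ p.1.2 ≠ []) →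
        Transcendental (baseField Λ) (∑ p ∈ g.support, g p • N p.1.1 p.1.2)) ∧
      -- (3)
      (∀ Q : Set (ℝ × ℂ), (∀ q ∈ Q, q.1 ∈ V Λ ∧ q.2 ∈ Λ) → InjOn (fun q : ℝ × ℂ => Complex.exp q.1 * q.2) Q →
        AlgebraicIndependent (baseField Λ) (fun p : Q × ℕ => N p.1.1.1 (zerosThen p.2 p.1.1.2))) ∧
      -- (4)
      ((∀ t : ℝ, 0 < t → IsAlgebraic ℚ t → ∀ a ∈ Λ, (t : ℂ) * a ∈ Λ) → ∀ b : ℝ, 0 < b → (b : ℂ) ∈ baseField Λ →
        Transcendental ℚ (Real.exp b) ∨ FreeOver (baseField Λ) Λ b)) ∧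
    -- (5)
    (∀ r : ℚ, 0 < r → Transcendental ℚ (Real.exp (r * Real.exp 1)) ∨ FreeOver expField allLetters (r * Real.exp 1)) ∧
    -- (6)
    (∀ w : List ℂ, Admissible w → w ≠ [] →
      Transcendental ℚ (Real.exp (Real.exp 1)) ∨ Transcendental ℚ (J w (Real.exp 1))) := by
  refine ⟨fun Λ hΛ => ⟨fun P hP => part1 hΛ hP, fun P hP => part2 hΛ hP, fun Q hQ hinj => part3 hΛ hQ hinj,
    fun hcone b hb hbK => part4 hΛ hcone hb hbK⟩, fun r hr => ?_, fun w hw hne => ?_⟩
  · exact part5 (mul_pos (by exact_mod_cast hr) (Real.exp_pos 1)) (re_mem r)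
  · have h1 := part5 (b := Real.exp 1) (Real.exp_pos 1) (by
      have := re_mem 1
      rwa [Rat.cast_one, one_mul] at this)
    rcases h1 with h1 | h1
    · exact Or.inl h1
    · right
      have h2 := h1.2 (Finsupp.single ⟨w, word_all hw⟩ 1) ⟨⟨w, word_all hw⟩, by
        rw [Finsupp.single_eq_same]; exact one_ne_zero, hne⟩
      rw [Finsupp.support_single _ one_ne_zero, Finset.sum_singleton, Finsupp.single_eq_same, one_smul] at h2
      intro h3
      exact h2 (h3.extendScalars (algebraMap ℚ expField).injective)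

end Pool.Agent.Results.MP_58ae59_nt.IteratedIntegralsUpToE
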