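import Mathlib
import Pool.Agent.H18.Mo.EE

set_option autoImplicit false

/-!
# `e^e` and integrals of multiple harmonic series up to `e`

For a sequence `s = (k, s_2, …, s_m)` of integers `≥ 2` let `H_s(j) = ∑_{j ≥ b_1 > b_2 > … > b_m ≥ 1} 1 / (b_1^k b_2^{s_2} ⋯ b_m^{s_m})` be the
multiple harmonic sum, and let

* `S_s(x) = exp (-x) ∑_j x^j/j! H_s(j)`, the mean of `H_s` at a Poisson distributed index with mean `x`,
* `g_s(x) = ∑_{n ≥ 1} H_{(s_2, …, s_m)}(n - 1) x^n / (n! n^(k - 1))`, an entire function, and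
  `N_s(x, c) = ∫_0^c exp (-x e^t) g_s(x e^t) dt`.

For example `N_{(2)}(1, e) = ∫_0^e exp (-e^t) ∑_{n ≥ 1} e^(n t) / (n! n) dt`.

For complex numbers `a_1, …, a_n` with `a_n ≠ 0` let `I(a_1, …, a_n)` be the iterated integral of the forms
`ω_{a_1}(t_1), …, ω_{a_n}(t_n)` over `1 > t_1 > … > t_n > 0`, where `ω_0 = dt / t` and `ω_a = (exp (a t) - 1) dt / t` for `a ≠ 0`.
Let `𝓚` be the field which is generated by all algebraic numbers, all numbers `exp b`, `b` algebraic, and all numbers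
`I(a_1, …, a_n)` with algebraic `a_1, …, a_n`, no two nonzero ones of which have sum zero.

(1) `N_s(x, c) = S_s(x e^c) - S_s(x)` for all real `x, c`.

(2) Let `X` be a set of positive algebraic numbers and `V` a set of real numbers `c` for which `e^c` is algebraic, such that the numbers
`x e^c` with `x ∈ X`, `c ∈ V ∪ {0}` are different. Then the numbers `S_s(x)` and `N_s(x, c)` (`s` a nonempty finite sequence of integers
`≥ 2`, `x ∈ X`, `c ∈ V`, `c ≠ 0`) are algebraically independent over `𝓚`.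

(3) So if `b ≠ 0` is real and `e^b` is algebraic and `X` is a set of positive algebraic numbers no two of which have a quotient `e^(r b)` with
rational `r`, then the numbers `S_s(x)` and `N_s(x, r b)` (`s` as above, `x ∈ X`, `r ≠ 0` rational) are algebraically independent over `𝓚`.

(4) `e^e` is transcendental, or for every such `X` the numbers `S_s(x)` and `N_s(x, r e)` (`r ≠ 0` rational) are algebraically independent
over `𝓚`. In particular for all nonempty `s` with entries `≥ 2`, all positive algebraic `x` and all rational `r ≠ 0` one of the two numbers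
`e^e` and `N_s(x, r e)` is transcendental, the second one even over `𝓚`.

The proof rests on the algebraic independence of the numbers `S_s(x)` over `𝓚` for all depths (`Pool.Agent.H18.Mo`, see
`MP_f1a024_nt.MomentsOfZetaTails`).
-/

namespace Pool.Agent.Results.MP_58ae59_nt.MultipleHarmonicSeriesUpToE

open Set

/-- `E_x(c_J) = exp (-x) * ∑_j x^j/j! * c_j` -/
noncomputable def poissonMean (x : ℂ) (c : ℕ → ℂ) : ℂ := Complex.exp (-x) * ∑' j : ℕ, x ^ j / j.factorial * c j

/-- the multiple harmonic sum `∑_{j ≥ b_1 > … > b_m ≥ 1} 1 / (b_1^{s_1} ⋯ b_m^{s_m})` -/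
noncomputable def multipleHarmonic : List ℕ → ℕ → ℂ
  | [], _ => 1
  | k :: s, j => ∑ b ∈ Finset.range j, multipleHarmonic s b / ((b : ℂ) + 1) ^ k

/-- `S_s(x)` -/
noncomputable def S (s : List ℕ) (x : ℂ) : ℂ := poissonMean x fun j => multipleHarmonic s j

/-- `g_s(x)` -/
noncomputable def g : List ℕ → ℂ → ℂ
  | [], _ => 0
  | k :: s, x => ∑' n : ℕ, multipleHarmonic s n * x ^ (n + 1) / (((n + 1).factorial : ℂ) * ((n : ℂ) + 1) ^ (k - 1))

/-- `N_s(x, c)` -/
noncomputable def N (s : List ℕ) (x c : ℝ) : ℂ :=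
  ∫ t in (0 : ℝ)..c, Complex.exp (-(x * Complex.exp t)) * g s (x * Complex.exp t)

/-- the iterated integral of `ω_{a_1}(t_1), …, ω_{a_n}(t_n)` over `t > t_1 > … > t_n > 0` -/
noncomputable def iterated : List ℂ → ℝ → ℂ
  | [], _ => 1
  | a :: v, t => ∫ s in (0 : ℝ)..t, (if a = 0 then 1 else Complex.exp (a * s) - 1) * iterated v s / s

/-- `I(a_1, …, a_n)` -/
noncomputable def I (w : List ℂ) : ℂ := iterated w 1

/-- the entries are algebraic, the last one is not zero, no two nonzero entries have sum zero -/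
def Admissible (w : List ℂ) : Prop :=
  (∀ a ∈ w, IsAlgebraic ℚ a) ∧ (∀ h : w ≠ [], w.getLast h ≠ 0) ∧ ∀ a ∈ w, a ≠ 0 → -a ∉ w

/-- the field `𝓚` -/
noncomputable def baseField : IntermediateField ℚ ℂ := IntermediateField.adjoin ℚ
  ({z | IsAlgebraic ℚ z} ∪ {z | ∃ b : ℂ, IsAlgebraic ℚ b ∧ z = Complex.exp b} ∪
    {z | ∃ w : List ℂ, Admissible w ∧ z = I w})

/-- a set of positive algebraic numbers -/
def Positive (X : Set ℝ) : Prop := ∀ x ∈ X, 0 < x ∧ IsAlgebraic ℚ x

/-- the condition in (2): the elements of `X` are positive and algebraic, the numbers `e^c`, `c ∈ V`, are algebraic, and the numbers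
`x e^c`, `x ∈ X`, `c ∈ V ∪ {0}`, are different -/
def Good (X V : Set ℝ) : Prop := Positive X ∧ (∀ c ∈ V, IsAlgebraic ℚ (Real.exp c)) ∧
  ∀ x ∈ X, ∀ y ∈ X, ∀ c d : ℝ, (c ∈ V ∨ c = 0) → (d ∈ V ∨ d = 0) → x * Real.exp c = y * Real.exp d → x = y ∧ c = d

/-- the indices `((x, c), s)` with `x ∈ X`, `c ∈ V ∪ {0}` and a nonempty sequence `s` of integers `≥ 2` -/
abbrev Index (X V : Set ℝ) : Type :=
  {q : (ℝ × ℝ) × List ℕ // q.1.1 ∈ X ∧ (q.1.2 ∈ V ∨ q.1.2 = 0) ∧ q.2 ≠ [] ∧ ∀ k ∈ q.2, 2 ≤ k}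

open Classical in
/-- the number `S_s(x)` for `c = 0` and `N_s(x, c)` for `c ≠ 0` -/
noncomputable def number (X V : Set ℝ) (q : Index X V) : ℂ :=
  if q.1.1.2 = 0 then S q.1.2 q.1.1.1 else N q.1.2 q.1.1.1 q.1.1.2

/-- the multiples `r b` with rational `r ≠ 0` -/
def multiples (b : ℝ) : Set ℝ := {c | ∃ r : ℚ, r ≠ 0 ∧ c = (r : ℝ) * b}

/-- no two elements of `X` have a quotient `e^(r b)` with rational `r` -/
def Separated (X : Set ℝ) (b : ℝ) : Prop := ∀ x ∈ X, ∀ y ∈ X, ∀ r : ℚ, x = y * Real.exp ((r : ℝ) * b) → x = y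

open Pool.Agent.N902.EW Pool.Agent.H18.Mo

theorem iterated_eq (w : List ℂ) : ∀ t : ℝ, iterated w t = II w t := by
  induction w with
  | nil => intro t; rfl
  | cons a v ih =>
    intro t
    rw [iterated, II]
    refine intervalIntegral.integral_congr fun s _ => ?_
    show (if a = 0 then 1 else Complex.exp (a * s) - 1) * iterated v s / s = _
    rw [ih]

theorem baseField_eq : baseField = KK := by
  rw [baseField, KK]
  congr 2
  ext z
  constructor
  · rintro ⟨w, hw, rfl⟩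
    exact ⟨w, ⟨hw.1, hw.2.1⟩, hw.2.2, iterated_eq w 1⟩
  · rintro ⟨w, hw, hno, rfl⟩
    exact ⟨w, ⟨hw.1, hw.2, hno⟩, (iterated_eq w 1).symm⟩

theorem mh_eq (s : List ℕ) : ∀ j : ℕ, multipleHarmonic s j = mh s j := by
  induction s with
  | nil => intro j; rfl
  | cons k s ih =>
    intro j
    rw [multipleHarmonic, mh_cons]
    exact Finset.sum_congr rfl fun b _ => by rw [ih]

theorem S_eq (s : List ℕ) (x : ℂ) : S s x = Pool.Agent.H18.Pr.Em x (mh s) := by
  unfold S
  rw [funext (mh_eq s)]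
  rfl

theorem g_eq (k : ℕ) (s : List ℕ) (z : ℂ) : g (k :: s) z = gf k s z := by
  rw [g, gf]
  exact tsum_congr fun n => by rw [mh_eq]

theorem N_eq {k : ℕ} {s : List ℕ} (hs : ∀ l ∈ k :: s, 2 ≤ l) (x c : ℝ) :
    N (k :: s) x c = S (k :: s) (x * Complex.exp c) - S (k :: s) x := by
  rw [S_eq, S_eq, ← integral_gf hs, N]
  refine intervalIntegral.integral_congr fun t _ => ?_
  show Complex.exp (-(x * Complex.exp t)) * g (k :: s) (x * Complex.exp t) = _
  rw [g_eq]

theorem number_eq {X V : Set ℝ} (q : Index X V) : number X V q = nE (X := X) (V := V) q := by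
  obtain ⟨⟨⟨x, c⟩, s⟩, hx, hc, hs, hs2⟩ := q
  rw [number, nE]
  by_cases h : c = 0
  · rw [if_pos h, if_pos h, S_eq]
  · rw [if_neg h, if_neg h]
    obtain ⟨k, s, rfl⟩ : ∃ k s', s = k :: s' := by
      cases s with
      | nil => exact absurd rfl hs
      | cons k s => exact ⟨k, s, rfl⟩
    show N (k :: s) x c = _
    rw [N_eq hs2, S_eq, S_eq]

theorem independent {X V : Set ℝ} (h : Good X V) : AlgebraicIndependent baseField (number X V) := by
  rw [baseField_eq, show number X V = nE from funext number_eq]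
  exact ai_nE h.1 h.2.1 h.2.2

theorem alg_multiple {b : ℝ} (h2 : IsAlgebraic ℚ (Real.exp b)) (r : ℚ) : IsAlgebraic ℚ (Real.exp ((r : ℝ) * b)) := by
  have h3 : Real.exp ((r : ℝ) * b) ^ r.den = Real.exp b ^ r.num := by
    rw [← Real.exp_nat_mul, ← Real.rpow_intCast, ← Real.exp_mul]
    congr 1
    have : (r.den : ℝ) * (r : ℝ) = r.num := by exact_mod_cast Rat.den_mul_eq_num r
    rw [← mul_assoc, this, mul_comm]
  refine IsAlgebraic.of_pow (n := r.den) r.den_pos ?_
  rw [h3]
  have h4 : ∀ z : ℝ, IsAlgebraic ℚ z ↔ z ∈ algebraicClosure ℚ ℝ := fun z => by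
    rw [mem_algebraicClosure_iff]
  rw [h4]
  exact zpow_mem ((h4 _).1 h2) _

theorem good_multiples {b : ℝ} (hb : b ≠ 0) (h : IsAlgebraic ℚ (Real.exp b)) {X : Set ℝ} (hX : Positive X)
    (hsep : Separated X b) : Good X (multiples b) := by
  refine ⟨hX, ?_, ?_⟩
  · rintro _ ⟨r, -, rfl⟩
    exact alg_multiple h r
  · have hr : ∀ c : ℝ, (c ∈ multiples b ∨ c = 0) → ∃ r : ℚ, c = (r : ℝ) * b := by
      rintro c (⟨r, -, rfl⟩ | rfl)
      · exact ⟨r, rfl⟩
      · exact ⟨0, by simp⟩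
    intro x hx y hy c d hc hd hxy
    obtain ⟨r, rfl⟩ := hr c hc
    obtain ⟨q, rfl⟩ := hr d hd
    have h1 : x = y * Real.exp (((q - r : ℚ) : ℝ) * b) := by
      have h2 : Real.exp (((q - r : ℚ) : ℝ) * b) = Real.exp ((q : ℝ) * b) / Real.exp ((r : ℝ) * b) := by
        rw [← Real.exp_sub]
        congr 1
        push_cast
        ring
      rw [h2, mul_div_assoc', ← hxy]
      field_simp
    have h3 := hsep x hx y hy _ h1
    subst h3
    refine ⟨rfl, ?_⟩
    have h4 := mul_left_cancel₀ (hX x hx).1.ne' hxy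
    exact Real.exp_injective h4

theorem result :
    -- (1)
    (∀ s : List ℕ, s ≠ [] → (∀ k ∈ s, 2 ≤ k) → ∀ x c : ℝ, N s x c = S s (x * Complex.exp c) - S s x) ∧
    -- (2)
    (∀ X V : Set ℝ, Good X V → AlgebraicIndependent baseField (number X V)) ∧
    -- (3)
    (∀ b : ℝ, b ≠ 0 → IsAlgebraic ℚ (Real.exp b) → ∀ X : Set ℝ, Positive X → Separated X b →
      AlgebraicIndependent baseField (number X (multiples b))) ∧
    -- (4)
    (Transcendental ℚ (Real.exp (Real.exp 1)) ∨ ∀ X : Set ℝ, Positive X → Separated X (Real.exp 1) →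
      AlgebraicIndependent baseField (number X (multiples (Real.exp 1)))) ∧
    (∀ s : List ℕ, s ≠ [] → (∀ k ∈ s, 2 ≤ k) → ∀ x : ℝ, 0 < x → IsAlgebraic ℚ x → ∀ r : ℚ, r ≠ 0 →
      Transcendental ℚ (Real.exp (Real.exp 1)) ∨ Transcendental baseField (N s x ((r : ℝ) * Real.exp 1))) := by
  have h3 : ∀ b : ℝ, b ≠ 0 → IsAlgebraic ℚ (Real.exp b) → ∀ X : Set ℝ, Positive X → Separated X b →
      AlgebraicIndependent baseField (number X (multiples b)) :=
    fun b hb h X hX hs => independent (good_multiples hb h hX hs)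
  refine ⟨?_, fun X V h => independent h, h3, ?_, ?_⟩
  · intro s hs hs2 x c
    cases s with
    | nil => exact absurd rfl hs
    | cons k s => exact N_eq hs2 x c
  · by_cases h : IsAlgebraic ℚ (Real.exp (Real.exp 1))
    · exact Or.inr fun X hX hs => h3 _ (Real.exp_pos 1).ne' h X hX hs
    · exact Or.inl h
  · intro s hs hs2 x hx hxa r hr
    by_cases h : IsAlgebraic ℚ (Real.exp (Real.exp 1))
    · right
      have h1 := h3 _ (Real.exp_pos 1).ne' h {x} (by rintro y rfl; exact ⟨hx, hxa⟩) (by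
        rintro y rfl z rfl q _; rfl)
      have hc : (r : ℝ) * Real.exp 1 ≠ 0 := mul_ne_zero (by exact_mod_cast hr) (Real.exp_pos 1).ne'
      have h2 := h1.transcendental ⟨((x, (r : ℝ) * Real.exp 1), s), rfl, Or.inl ⟨r, hr, rfl⟩, hs, hs2⟩
      have e : number {x} (multiples (Real.exp 1)) ⟨((x, (r : ℝ) * Real.exp 1), s), rfl, Or.inl ⟨r, hr, rfl⟩, hs, hs2⟩ =
          N s x ((r : ℝ) * Real.exp 1) := if_neg hc
      rwa [e] at h2
    · exact Or.inl h

end Pool.Agent.Results.MP_58ae59_nt.MultipleHarmonicSeriesUpToE
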